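import Pool.Agent.N922.PQ.Lat

/-!
# Reduction of positive definite ternary forms
-/

set_option autoImplicit false

open Matrix

namespace Pool.Agent.N945.PQ.RED

/-- the value of the form -/
noncomputable def qf (H : Matrix (Fin 3) (Fin 3) ℝ) (v : Fin 3 → ℤ) : ℝ :=
  (fun j => (v j : ℝ)) ⬝ᵥ H *ᵥ (fun j => (v j : ℝ))

/-- the sum of the values at the rows -/
noncomputable def trf (H : Matrix (Fin 3) (Fin 3) ℝ) (U : Matrix (Fin 3) (Fin 3) ℤ) : ℝ :=
  ∑ i, qf H (U i)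

theorem lower {H : Matrix (Fin 3) (Fin 3) ℝ} (hH : H.PosDef) :
    ∃ c : ℝ, 0 < c ∧ ∀ v : Fin 3 → ℝ, c * ‖v‖ ^ 2 ≤ v ⬝ᵥ H *ᵥ v := by
  have hcont : Continuous fun v : Fin 3 → ℝ => v ⬝ᵥ H *ᵥ v := by
    simp only [dotProduct, mulVec]
    fun_prop
  have hcomp : IsCompact (Metric.sphere (0 : Fin 3 → ℝ) 1) := isCompact_sphere _ _
  have hne : (Metric.sphere (0 : Fin 3 → ℝ) 1).Nonempty := by
    refine ⟨fun _ => 1, ?_⟩
    rw [mem_sphere_zero_iff_norm, pi_norm_const]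
    simp
  obtain ⟨w, hw, hmin⟩ := hcomp.exists_isMinOn hne hcont.continuousOn
  have hw1 : ‖w‖ = 1 := mem_sphere_zero_iff_norm.1 hw
  have hw0 : w ≠ 0 := by
    rintro rfl
    simp at hw1
  have hpos : ∀ v : Fin 3 → ℝ, v ≠ 0 → 0 < v ⬝ᵥ H *ᵥ v := by
    intro v hv
    have := hH.dotProduct_mulVec_pos hv
    simpa using this
  refine ⟨w ⬝ᵥ H *ᵥ w, hpos w hw0, fun v => ?_⟩
  by_cases hv : v = 0
  · subst hv
    simp
  · have hn : 0 < ‖v‖ := norm_pos_iff.2 hv
    have h1 : (‖v‖⁻¹ • v) ∈ Metric.sphere (0 : Fin 3 → ℝ) 1 := by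
      rw [mem_sphere_zero_iff_norm, norm_smul, norm_inv, norm_norm, inv_mul_cancel₀ hn.ne']
    have h2 : w ⬝ᵥ H *ᵥ w ≤ (‖v‖⁻¹ • v) ⬝ᵥ H *ᵥ (‖v‖⁻¹ • v) := hmin h1
    rw [mulVec_smul, dotProduct_smul, smul_dotProduct, smul_eq_mul, smul_eq_mul] at h2
    have h3 : v ⬝ᵥ H *ᵥ v = ‖v‖ ^ 2 * (‖v‖⁻¹ * (‖v‖⁻¹ * (v ⬝ᵥ H *ᵥ v))) := by
      field_simp
    rw [h3, mul_comm]
    exact mul_le_mul_of_nonneg_left h2 (by positivity)

theorem qf_nonneg {H : Matrix (Fin 3) (Fin 3) ℝ} (hH : H.PosDef) (v : Fin 3 → ℤ) : 0 ≤ qf H v := by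
  obtain ⟨c, hc, h⟩ := lower hH
  exact le_trans (by positivity) (h _)

theorem finite_le {H : Matrix (Fin 3) (Fin 3) ℝ} (hH : H.PosDef) (C : ℝ) :
    {U : Matrix (Fin 3) (Fin 3) ℤ | trf H U ≤ C}.Finite := by
  obtain ⟨c, hc, h⟩ := lower hH
  obtain ⟨N, hN⟩ := exists_nat_ge (C / c + 1)
  refine (Set.finite_Icc (fun _ _ => -(N : ℤ) : Fin 3 → Fin 3 → ℤ) (fun _ _ => (N : ℤ))).subset ?_
  intro U hU
  have key : ∀ i j, |U i j| ≤ (N : ℤ) := by
    intro i j
    have h1 : qf H (U i) ≤ C := by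
      refine le_trans ?_ hU
      exact Finset.single_le_sum (f := fun i => qf H (U i)) (fun i _ => qf_nonneg hH (U i))
        (Finset.mem_univ i)
    have h2 : c * (|(U i j : ℝ)|) ^ 2 ≤ C := by
      refine le_trans ?_ h1
      refine le_trans ?_ (h (fun j => (U i j : ℝ)))
      refine mul_le_mul_of_nonneg_left ?_ hc.le
      have h3 : |(U i j : ℝ)| ≤ ‖(fun j => (U i j : ℝ))‖ := by
        have := norm_le_pi_norm (fun j => (U i j : ℝ)) j
        simpa using this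
      exact pow_le_pow_left₀ (abs_nonneg _) h3 2
    have h4 : (|(U i j : ℝ)|) ^ 2 ≤ C / c := by
      rw [le_div_iff₀ hc]
      linarith
    have h5 : |(U i j : ℝ)| ≤ N := by
      nlinarith [abs_nonneg (U i j : ℝ), sq_nonneg (|(U i j : ℝ)| - 1)]
    exact_mod_cast h5
  exact ⟨fun i j => (abs_le.1 (key i j)).1, fun i j => (abs_le.1 (key i j)).2⟩

theorem exists_min {H : Matrix (Fin 3) (Fin 3) ℝ} (hH : H.PosDef) :
    ∃ U : Matrix (Fin 3) (Fin 3) ℤ, IsUnit U.det ∧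
      ∀ V : Matrix (Fin 3) (Fin 3) ℤ, IsUnit V.det → trf H U ≤ trf H V := by
  have hfin : {U : Matrix (Fin 3) (Fin 3) ℤ | IsUnit U.det ∧ trf H U ≤ trf H 1}.Finite :=
    (finite_le hH (trf H 1)).subset fun U hU => hU.2
  have hne : {U : Matrix (Fin 3) (Fin 3) ℤ | IsUnit U.det ∧ trf H U ≤ trf H 1}.Nonempty :=
    ⟨1, by simp, le_refl _⟩
  obtain ⟨U, hU, hmin⟩ := Set.exists_min_image _ (trf H) hfin hne
  refine ⟨U, hU.1, fun V hV => ?_⟩
  by_cases h : trf H V ≤ trf H 1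
  · exact hmin V ⟨hV, h⟩
  · exact hU.2.trans (not_le.1 h).le

/-- the minimum, sorted -/
theorem exists_min' {H : Matrix (Fin 3) (Fin 3) ℝ} (hH : H.PosDef) :
    ∃ U : Matrix (Fin 3) (Fin 3) ℤ, IsUnit U.det ∧
      (∀ V : Matrix (Fin 3) (Fin 3) ℤ, IsUnit V.det → trf H U ≤ trf H V) ∧
      Monotone fun i => qf H (U i) := by
  obtain ⟨U, hU, hmin⟩ := exists_min hH
  set σ : Equiv.Perm (Fin 3) := Tuple.sort fun i => qf H (U i) with hσ
  refine ⟨U.submatrix σ id, ?_, ?_, ?_⟩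
  · rw [det_permute]
    refine IsUnit.mul ?_ hU
    simp
  · intro V hV
    refine le_trans (le_of_eq ?_) (hmin V hV)
    unfold trf
    exact Equiv.sum_comp σ fun i => qf H (U i)
  · exact Tuple.monotone_sort fun i => qf H (U i)

theorem bound {a b c x y z : ℝ} (ha : 0 < a) (hab : a ≤ b) (hbc : b ≤ c)
    (hm : ∀ r s t : ℤ, 0 ≤ 2 * r * x + r ^ 2 * a + s ^ 2 * a + t ^ 2 * b + 2 * s * y + 2 * t * z +
      2 * s * t * x) (hd : a * b * c + 2 * x * y * z - a * z ^ 2 - b * y ^ 2 - c * x ^ 2 = 1) :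
    a * b * c ≤ 4 := by
  have hb : 0 < b := ha.trans_le hab
  have hc : 0 < c := hb.trans_le hbc
  have hx1 := hm 1 0 0
  have hx2 := hm (-1) 0 0
  have hy1 := hm 0 1 0
  have hy2 := hm 0 (-1) 0
  have hz1 := hm 0 0 1
  have hz2 := hm 0 0 (-1)
  have t1 := hm 0 1 1
  have t2 := hm 0 1 (-1)
  have t3 := hm 0 (-1) 1
  have t4 := hm 0 (-1) (-1)
  push_cast at hx1 hx2 hy1 hy2 hz1 hz2 t1 t2 t3 t4
  have hx : |x| ≤ a / 2 := abs_le.2 ⟨by linarith, by linarith⟩
  have hy : |y| ≤ a / 2 := abs_le.2 ⟨by linarith, by linarith⟩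
  have hz : |z| ≤ b / 2 := abs_le.2 ⟨by linarith, by linarith⟩
  have hx0 := abs_nonneg x
  have hy0 := abs_nonneg y
  have hz0 := abs_nonneg z
  have e1 : c * x ^ 2 ≤ a * c * |x| / 2 := by
    rw [← sq_abs]
    nlinarith [mul_nonneg hc.le (mul_nonneg hx0 (sub_nonneg.2 hx))]
  have e2 : b * y ^ 2 ≤ a * c * |y| / 2 := by
    rw [← sq_abs]
    nlinarith [mul_nonneg hb.le (mul_nonneg hy0 (sub_nonneg.2 hy)),
      mul_nonneg (mul_nonneg ha.le hy0) (sub_nonneg.2 hbc)]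
  have e3 : a * z ^ 2 ≤ a * c * |z| / 2 := by
    rw [← sq_abs]
    nlinarith [mul_nonneg ha.le (mul_nonneg hz0 (sub_nonneg.2 hz)),
      mul_nonneg (mul_nonneg ha.le hz0) (sub_nonneg.2 hbc)]
  have hac : 0 < a * c := mul_pos ha hc
  have habc : a * c * a ≤ a * c * b := mul_le_mul_of_nonneg_left hab hac.le
  by_cases hs : 0 ≤ x * y * z
  · have f1 : a * c * |x| ≤ a * c * (a / 2) := mul_le_mul_of_nonneg_left hx hac.le
    have f2 : a * c * |y| ≤ a * c * (a / 2) := mul_le_mul_of_nonneg_left hy hac.le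
    have f3 : a * c * |z| ≤ a * c * (b / 2) := mul_le_mul_of_nonneg_left hz hac.le
    nlinarith
  · have hsum : |x| + |y| + |z| ≤ (a + b) / 2 := by
      rcases le_total 0 x with h1 | h1 <;> rcases le_total 0 y with h2 | h2 <;>
        rcases le_total 0 z with h3 | h3
      · exact absurd (mul_nonneg (mul_nonneg h1 h2) h3) hs
      · rw [abs_of_nonneg h1, abs_of_nonneg h2, abs_of_nonpos h3]
        linarith
      · rw [abs_of_nonneg h1, abs_of_nonpos h2, abs_of_nonneg h3]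
        linarith
      · exact absurd (mul_nonneg_of_nonpos_of_nonpos (mul_nonpos_of_nonneg_of_nonpos h1 h2) h3) hs
      · rw [abs_of_nonpos h1, abs_of_nonneg h2, abs_of_nonneg h3]
        linarith
      · exact absurd (mul_nonneg_of_nonpos_of_nonpos (mul_nonpos_of_nonpos_of_nonneg h1 h2) h3) hs
      · exact absurd (mul_nonneg (mul_nonneg_of_nonpos_of_nonpos h1 h2) h3) hs
      · rw [abs_of_nonpos h1, abs_of_nonpos h2, abs_of_nonpos h3]
        linarith
    have g1 : a * c * (|x| + |y| + |z|) ≤ a * c * ((a + b) / 2) :=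
      mul_le_mul_of_nonneg_left hsum hac.le
    have g2 : -(x * y * z) ≤ a / 2 * (a / 2) * (b / 2) := by
      have : |x * y * z| ≤ a / 2 * (a / 2) * (b / 2) := by
        rw [abs_mul, abs_mul]
        have g3 : |x| * |y| ≤ a / 2 * (a / 2) := mul_le_mul hx hy hy0 (by positivity)
        exact mul_le_mul g3 hz hz0 (by positivity)
      exact (neg_le_abs _).trans this
    have g4 : a * a * b ≤ a * c * b := by
      have : a * b * a ≤ a * b * c := mul_le_mul_of_nonneg_left (hab.trans hbc) (by positivity)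
      linarith
    nlinarith

theorem main : Pool.Agent.N922.PQ.S_RED := by
  intro H hH hdet
  obtain ⟨U, hU, hmin, hmono⟩ := exists_min' hH
  have hsymm : ∀ i j, H j i = H i j := by
    intro i j
    have := hH.isHermitian.apply i j
    simpa using this
  obtain ⟨A, hA⟩ : ∃ A : Matrix (Fin 3) (Fin 3) ℝ, A = U.map (fun n : ℤ => (n : ℝ)) * H *
    (U.map (fun n : ℤ => (n : ℝ)))ᵀ := ⟨_, rfl⟩
  have hq : ∀ (E : Matrix (Fin 3) (Fin 3) ℤ) (i : Fin 3), qf H ((E * U) i) = qf A (E i) := by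
    intro E i
    rw [hA]
    simp only [qf, dotProduct, mulVec, Matrix.mul_apply, Matrix.transpose_apply, Matrix.map_apply,
      Fin.sum_univ_three]
    push_cast
    ring
  have hrow : ∀ i, qf H (U i) = A i i := by
    intro i
    have := hq 1 i
    rw [one_mul] at this
    rw [this]
    unfold qf
    simp [dotProduct, mulVec, Matrix.one_apply]
  have hAs : ∀ i j, A j i = A i j := by
    intro i j
    rw [hA]
    simp only [Matrix.mul_apply, Matrix.transpose_apply, Matrix.map_apply, Fin.sum_univ_three]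
    rw [hsymm 0 1, hsymm 0 2, hsymm 1 2]
    ring
  have hAd : A.det = 1 := by
    rw [hA, det_mul, det_mul, det_transpose, hdet]
    have h1 : (U.map (fun n : ℤ => (n : ℝ))).det = ((U.det : ℤ) : ℝ) := by
      have := (Int.castRingHom ℝ).map_det U
      simpa using this.symm
    rw [h1]
    rcases Int.isUnit_iff.1 hU with h | h
    · rw [h]
      norm_num
    · rw [h]
      norm_num
  have hpos : ∀ i, 0 < qf H (U i) := by
    intro i
    have h1 : (fun j => (U i j : ℝ)) ≠ 0 := by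
      intro h0
      have h2 : U.det = 0 := Matrix.det_eq_zero_of_row_eq_zero i fun j => by
        have := congrFun h0 j
        simpa using this
      rw [h2] at hU
      exact not_isUnit_zero hU
    have := hH.dotProduct_mulVec_pos h1
    simpa [qf] using this
  have hm : ∀ r s t : ℤ, 0 ≤ 2 * r * A 0 1 + r ^ 2 * A 0 0 + s ^ 2 * A 0 0 + t ^ 2 * A 1 1 +
      2 * s * A 0 2 + 2 * t * A 1 2 + 2 * s * t * A 0 1 := by
    intro r s t
    have h1 : (!![1, 0, 0; r, 1, 0; s, t, 1] : Matrix (Fin 3) (Fin 3) ℤ).det = 1 := by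
      rw [det_fin_three]
      simp
    have h2 := hmin (!![1, 0, 0; r, 1, 0; s, t, 1] * U) (by
      rw [det_mul, h1, one_mul]
      exact hU)
    unfold trf at h2
    rw [Fin.sum_univ_three, Fin.sum_univ_three, hrow, hrow, hrow, hq, hq, hq] at h2
    simp only [qf, dotProduct, mulVec, Fin.sum_univ_three] at h2
    simp at h2
    rw [hAs 0 1, hAs 0 2, hAs 1 2] at h2
    linarith
  have hab : A 0 0 ≤ A 1 1 := by
    rw [← hrow, ← hrow]
    exact hmono (by decide : (0 : Fin 3) ≤ 1)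
  have hbc : A 1 1 ≤ A 2 2 := by
    rw [← hrow, ← hrow]
    exact hmono (by decide : (1 : Fin 3) ≤ 2)
  have hA0 : 0 < A 0 0 := by
    rw [← hrow]
    exact hpos 0
  have hb := bound hA0 hab hbc hm (by
    rw [det_fin_three, hAs 0 1, hAs 0 2, hAs 1 2] at hAd
    linarith)
  refine ⟨U, fun i => Real.sqrt (qf H (U i)), hU, fun i => Real.sqrt_pos.2 (hpos i),
    fun i j hij => Real.sqrt_le_sqrt (hmono hij), ?_, fun i => ?_⟩
  · show Real.sqrt (qf H (U 0)) * Real.sqrt (qf H (U 1)) * Real.sqrt (qf H (U 2)) ≤ 8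
    rw [← Real.sqrt_mul (hpos 0).le, ← Real.sqrt_mul (mul_pos (hpos 0) (hpos 1)).le, hrow, hrow, hrow]
    refine Real.sqrt_le_iff.2 ⟨by norm_num, ?_⟩
    linarith
  · exact (Real.sq_sqrt (hpos i).le).symm

end Pool.Agent.N945.PQ.RED
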